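import Pool.Agent.K7.H64.LS.DenseS
import Pool.Agent.K7.H64.LS.Inst

/-!
# Sumsets of dense sets of `n` with `n ^ 2 + 1` prime

Let `A` and `B` be sets of integers of two intervals of length `N`, where `n ^ 2 + 1` is prime (or has no prime factors
up to a fixed power of `N`) for the elements `n` of `A`, and the same holds for the elements of `B`, with `n ^ 2 + 1` or
with the values of another polynomial, for example for a set `B` of primes. If both sets have at least
`N / (log N) ^ (10 / 9)` elements, and if `β` is the smaller one of the numbers `|A| log N / N`, `|B| log N / N`, then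
`A + B` is larger than the larger one of the sets by the factor `log N / loglog (1 / β)`, up to a constant. This is the
true order of magnitude in terms of `β`, if the set of all `n` with `n ^ 2 + 1` prime is as regular as expected: take for
`B` its elements in one residue class modulo the product of the primes up to `log (1 / β)`. In particular, sets `A`, `B` of
positive relative density have a sumset of positive density, at least `c |A| log N / (N loglog (1 / β))`.

Method: the integers are split into the classes modulo the product `W` of the primes up to `w`, a small multiple of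
`log N`. For two classes in which both sets have their expected density up to a power of `w`, the trigonometric polynomials
of `A` and `B` are bounded by the large sieve inequality at few points and the restriction theorem; since the classes are
free of small prime factors, there is no loss. The classes themselves are treated by an inequality for the entropy
of sums of independent random elements `X`, `Y` of the finite group `Z / W` which avoid few classes modulo
each prime `p`: the entropy of `X + Y` exceeds that of `X` by `log (W / |R|)`, `R` the set of the permitted values of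
`X`, up to the contribution of the primes up to `log (|S| / |T|)`, if `Y` is uniformly distributed on a subset `T` of the
set `S` of its permitted values. It is proved by the chain rule.
-/

set_option autoImplicit false

namespace Pool.Agent.Results.MP_484c84_nt.DenseSumsets

open Finset Polynomial

/-- `|h(n)|` is prime or `h(n)` has no prime factors up to `y`. -/
def Sifted (h : ℤ[X]) (y : ℝ) (n : ℕ) : Prop :=
  (h.eval (n : ℤ)).natAbs.Prime ∨ ∀ p : ℕ, p.Prime → (p : ℤ) ∣ h.eval (n : ℤ) → y < p

/-- **Sumsets of dense sets of `n` with `n ^ 2 + 1` prime.** Let `h` be an irreducible polynomial with integer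
coefficients, of positive degree and with positive leading coefficient, the values of which have no fixed prime
divisor, and let `κ > 0`. There is `c > 0` such that for all `N ≥ 2`, all sets `A` of integers in an
interval `(x, x + N]` and all sets `B` of integers in an interval `(y, y + N]`, such that for all `n ∈ A` the
number `n ^ 2 + 1` is prime or has no prime factors up to `N ^ κ`, for all `n ∈ B` the number `|h(n)|` is prime or
has no prime factors up to `N ^ κ`, and both sets have at least `N / (log N) ^ (10 / 9)` elements, the number of the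
sums `a + b`, `a ∈ A`, `b ∈ B`, is at least
`c max(|A|, |B|) log N / log (2 + log (2 + N / (min(|A|, |B|) log N)))`. -/
theorem result (h : ℤ[X]) (hirr : Irreducible h) (hdeg : 0 < h.natDegree) (hlead : 0 < h.leadingCoeff)
    (hfix : ∀ p : ℕ, p.Prime → ∃ m : ℕ, ¬ (p : ℤ) ∣ h.eval (m : ℤ)) (κ : ℝ) (hκ : 0 < κ) :
    ∃ c : ℝ, 0 < c ∧ ∀ (x y N : ℕ) (A B : Finset ℕ), 2 ≤ N → A ⊆ Ioc x (x + N) → B ⊆ Ioc y (y + N) →
      (∀ n ∈ A, Sifted (X ^ 2 + 1) ((N : ℝ) ^ κ) n) → (∀ n ∈ B, Sifted h ((N : ℝ) ^ κ) n) →
      N / Real.log N ^ (10 / 9 : ℝ) ≤ (A.card : ℝ) → N / Real.log N ^ (10 / 9 : ℝ) ≤ (B.card : ℝ) →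
      c * (max (A.card : ℝ) B.card * Real.log N) /
          Real.log (2 + Real.log (2 + N / (min (A.card : ℝ) B.card * Real.log N))) ≤
        (((A ×ˢ B).image (fun t => t.1 + t.2)).card : ℝ) := by
  classical
  have hsys := Pool.Agent.K7.H64.LS.sysOne h hirr hdeg hlead hfix
  obtain ⟨C1, hC1, h1⟩ := Pool.Agent.K7.H64.LS.dense_sys _ Pool.Agent.K7.H64.LS.sysQ _ hsys hκ
  obtain ⟨C2, hC2, h2⟩ := Pool.Agent.K7.H64.LS.dense_sys _ hsys _ Pool.Agent.K7.H64.LS.sysQ hκ
  refine ⟨1 / (C1 + C2), by positivity, ?_⟩
  intro x y N A B hN hA hB hSA hSB hdA hdB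
  have hN2 : (2 : ℝ) ≤ N := by exact_mod_cast hN
  have hN0 : (0 : ℝ) < N := by linarith
  have hlN : 0 < Real.log N := Real.log_pos (by linarith)
  have hA0 : (0 : ℝ) < A.card := lt_of_lt_of_le (by positivity) hdA
  have hB0 : (0 : ℝ) < B.card := lt_of_lt_of_le (by positivity) hdB
  have hnA : A.Nonempty := card_pos.1 (by exact_mod_cast hA0)
  have hnB : B.Nonempty := card_pos.1 (by exact_mod_cast hB0)
  have hg : ∀ (q : ℤ[X]) (S : Finset ℕ), (∀ n ∈ S, Sifted q ((N : ℝ) ^ κ) n) →
      ∀ n ∈ S, Pool.Agent.K7.H64.LS.Good (fun _ : Unit => q) κ N n := by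
    intro q S hS n hn
    rcases hS n hn with h3 | h3
    · right
      exact fun _ => h3
    · left
      rintro p hp ⟨_, hd⟩
      exact h3 p hp hd
  have hd : ∀ L : ℝ, 0 < L → N / Real.log N ^ (10 / 9 : ℝ) ≤ L →
      N / (L * Real.log N ^ Fintype.card Unit) ≤ Real.log N ^ (1 / 9 : ℝ) := by
    intro L hL hLe
    rw [div_le_iff₀ (by positivity)] at hLe ⊢
    have e1 : Real.log N ^ (10 / 9 : ℝ) = Real.log N ^ (1 / 9 : ℝ) * Real.log N := by
      rw [show (10 / 9 : ℝ) = 1 / 9 + 1 by norm_num, Real.rpow_add hlN, Real.rpow_one]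
    rw [e1] at hLe
    simp only [Fintype.card_unit, pow_one]
    linarith
  have e1 := h1 N hN x y A B ((A ×ˢ B).image (fun t => t.1 + t.2)) hA hB (hg _ A hSA) (hg _ B hSB) hnA hnB
    (fun m hm n hn => mem_image.2 ⟨(m, n), mem_product.2 ⟨hm, hn⟩, rfl⟩) (hd _ hA0 hdA) (hd _ hB0 hdB)
  have e2 := h2 N hN y x B A ((A ×ˢ B).image (fun t => t.1 + t.2)) hB hA (hg _ B hSB) (hg _ A hSA) hnB hnA
    (fun m hm n hn => mem_image.2 ⟨(n, m), mem_product.2 ⟨hn, hm⟩, by simp only; ring⟩)
    (hd _ hB0 hdB) (hd _ hA0 hdA)
  simp only [Fintype.card_unit, pow_one] at e1 e2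
  obtain ⟨T, hT⟩ : ∃ T : ℝ, T = (((A ×ˢ B).image (fun t => t.1 + t.2)).card : ℝ) := ⟨_, rfl⟩
  have hT0 : 0 ≤ T := by rw [hT]; positivity
  rw [← hT] at e1 e2 ⊢
  have hpos : ∀ L : ℝ, 0 < L → 0 < Real.log (2 + Real.log (2 + N / (L * Real.log N))) := by
    intro L hL
    have h3 : 0 < Real.log (2 + N / (L * Real.log N)) := Real.log_pos (by
      have : 0 < N / (L * Real.log N) := by positivity
      linarith)
    exact Real.log_pos (by linarith)
  have hm0 : 0 < min (A.card : ℝ) B.card := lt_min hA0 hB0
  rw [div_le_iff₀ (hpos _ hm0), one_div, inv_mul_le_iff₀ (by positivity)]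
  rcases le_total (A.card : ℝ) B.card with h3 | h3
  · rw [max_eq_right h3, min_eq_left h3]
    refine e2.trans ?_
    have : 0 ≤ C1 * (T * Real.log (2 + Real.log (2 + N / (A.card * Real.log N)))) :=
      mul_nonneg hC1.le (mul_nonneg hT0 (hpos _ hA0).le)
    nlinarith
  · rw [max_eq_left h3, min_eq_right h3]
    refine e1.trans ?_
    have : 0 ≤ C2 * (T * Real.log (2 + Real.log (2 + N / (B.card * Real.log N)))) :=
      mul_nonneg hC2.le (mul_nonneg hT0 (hpos _ hB0).le)
    nlinarith

end Pool.Agent.Results.MP_484c84_nt.DenseSumsets
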