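import Pool.Agent.K7.H64.LS.Inst

/-!
# The large sieve at few points for the `n` with `n ^ 2 + 1` prime

For `k` points with spacing `δ` and arbitrary complex numbers `a n`, supported on those integers `n` of an
interval of length `N` for which `n ^ 2 + 1` is prime (or has no prime factors up to a fixed power of `N`), the
bound `N + 1 / δ` of the large sieve inequality is improved by the factor `log (2 k) / log N`. For one point this is
the upper bound sieve, for `N` points the large sieve inequality itself.

Method: for every set `S` of integers the values of the trigonometric polynomials at the points are estimated by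
duality, with a majorant of the indicator function of the sifted set, given by a sieve of Brun and Hooley, in the
middle. The majorant is split into a part of large denominators, of small supremum norm, and a part which is a
nonnegative function of the integers without prime factors up to `k ^ C`.
-/

set_option autoImplicit false

namespace Pool.Agent.Results.MP_484c84_nt.LargeSieveFewPoints

open Finset

/-- `n ^ 2 + 1` is prime or has no prime factors up to `y`. -/
def Sifted (y : ℝ) (n : ℕ) : Prop :=
  (n ^ 2 + 1).Prime ∨ ∀ p : ℕ, p.Prime → p ∣ n ^ 2 + 1 → y < p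

/-- **The large sieve at few points for the `n` with `n ^ 2 + 1` prime.** For every `κ > 0` there is `C` such that
for all `A`, all `N ≥ 2`, all sets `S` of integers `n` in `(A, A + N]` for which `n ^ 2 + 1` is prime or has no
prime factors up to `N ^ κ`, all complex numbers `a n` and all `k` real numbers `α i` that have pairwise distance at
least `δ` modulo `1`, the sum over `i` of `|∑ a n e(n α_i)| ^ 2`, with `n` in `S`, is at most
`C (N + 1 / δ) (log (2 k) / log N) ∑ |a n| ^ 2`. -/
theorem result (κ : ℝ) (hκ : 0 < κ) : ∃ C : ℝ, 0 < C ∧ ∀ (A N : ℕ) (S : Finset ℕ), 2 ≤ N →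
    S ⊆ Ioc A (A + N) → (∀ n ∈ S, Sifted ((N : ℝ) ^ κ) n) →
    ∀ (k : ℕ) (α : Fin k → ℝ) (δ : ℝ), 0 < δ →
      (∀ i j : Fin k, i ≠ j → ∀ m : ℤ, δ ≤ |α i - α j - m|) →
      ∀ a : ℕ → ℂ,
        ∑ i : Fin k, ‖∑ n ∈ S, a n * Complex.exp (2 * Real.pi * Complex.I * n * α i)‖ ^ 2 ≤
          C * ((N : ℝ) + 1 / δ) * (Real.log (2 * k) / Real.log N) * ∑ n ∈ S, ‖a n‖ ^ 2 := by
  obtain ⟨C, hC, h⟩ := Pool.Agent.K7.H64.LS.lsf_real _ Pool.Agent.K7.H64.LS.sysQ hκ
  refine ⟨C, hC, fun A N S hN hSI hS k α δ hδ hsep a => ?_⟩
  have h1 := h N hN A S hSI (fun n hn => by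
    have hev : ((Polynomial.X ^ 2 + 1 : Polynomial ℤ)).eval (n : ℤ) = ((n ^ 2 + 1 : ℕ) : ℤ) := by
      simp
    rcases hS n hn with h2 | h2
    · right
      intro _
      rw [hev, Int.natAbs_natCast]
      exact h2
    · left
      rintro q hq ⟨_, hd⟩
      rw [hev] at hd
      exact h2 q hq (by exact_mod_cast hd)) k α δ hδ hsep a
  simpa using h1

end Pool.Agent.Results.MP_484c84_nt.LargeSieveFewPoints
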