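import Pool.Agent.K7.H64.LS.Inst

/-!
# The restriction theorem for the `n` with `n ^ 2 + 1` prime

For every exponent `p > 2` the `L ^ p` norm of a trigonometric polynomial, supported on those integers `n` of an
interval of length `N` for which `n ^ 2 + 1` is prime (or has no prime factors up to a fixed power of `N`), is
bounded in terms of the `L ^ 2` norm of the coefficients, with the power of `N / log N` which is right if the set is
as large as conjectured.

Method: the large sieve inequality at few points, for the translates of the grid of the fractions with denominator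
`N`, applied to the sets of the points at which the values are large.
-/

set_option autoImplicit false

namespace Pool.Agent.Results.MP_484c84_nt.RestrictionTheorem

open Finset

/-- `n ^ 2 + 1` is prime or has no prime factors up to `y`. -/
def Sifted (y : ℝ) (n : ℕ) : Prop :=
  (n ^ 2 + 1).Prime ∨ ∀ p : ℕ, p.Prime → p ∣ n ^ 2 + 1 → y < p

/-- **The restriction theorem for the `n` with `n ^ 2 + 1` prime.** For every `κ > 0` and every real `p > 2` there is
`C` such that for all `A`, all `N ≥ 2`, all sets `S` of integers `n` in `(A, A + N]` for which `n ^ 2 + 1` is prime or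
has no prime factors up to `N ^ κ` and all complex numbers `a n`
`∫_0^1 |∑ a n e(n α)| ^ p dα ≤ (C / N) ((N / log N) ∑ |a n| ^ 2) ^ (p / 2)`, with sums over `n` in `S`. -/
theorem result (κ : ℝ) (hκ : 0 < κ) (p : ℝ) (hp : 2 < p) : ∃ C : ℝ, 0 < C ∧
    ∀ (A N : ℕ) (S : Finset ℕ), 2 ≤ N →
      S ⊆ Ioc A (A + N) → (∀ n ∈ S, Sifted ((N : ℝ) ^ κ) n) → ∀ a : ℕ → ℂ,
        ∫ α in (0 : ℝ)..1, ‖∑ n ∈ S, a n * Complex.exp (2 * Real.pi * Complex.I * n * α)‖ ^ p ≤
          C / N * ((N : ℝ) / Real.log N * ∑ n ∈ S, ‖a n‖ ^ 2) ^ (p / 2) := by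
  obtain ⟨C, hC, h⟩ := Pool.Agent.K7.H64.LS.restr_real _ Pool.Agent.K7.H64.LS.sysQ hκ hp
  refine ⟨C, hC, fun A N S hN hSI hS a => ?_⟩
  have h1 := h N hN A S hSI (fun n hn => by
    have hev : ((Polynomial.X ^ 2 + 1 : Polynomial ℤ)).eval (n : ℤ) = ((n ^ 2 + 1 : ℕ) : ℤ) := by
      simp
    rcases hS n hn with h2 | h2
    · right
      intro _
      rw [hev, Int.natAbs_natCast]
      exact h2
    · left
      rintro q hq ⟨_, hd⟩
      rw [hev] at hd
      exact h2 q hq (by exact_mod_cast hd)) a
  refine h1.trans (le_of_eq ?_)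
  have hN2 : (2 : ℝ) ≤ N := by exact_mod_cast hN
  have hN0 : (0 : ℝ) < N := by linarith
  have hlN : 0 < Real.log N := Real.log_pos (by linarith)
  have hG : 0 ≤ ∑ n ∈ S, ‖a n‖ ^ 2 := sum_nonneg fun i _ => by positivity
  rw [Real.mul_rpow (by positivity) hG, Real.div_rpow hN0.le hlN.le, Real.rpow_sub hN0, Real.rpow_one]
  simp only [Fintype.card_unit, pow_one]
  ring

end Pool.Agent.Results.MP_484c84_nt.RestrictionTheorem
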