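import Pool.Agent.K7.H60.SP.Dbl

set_option autoImplicit false

/-! # Long strings of values with at least three prime factors

By a theorem of Iwaniec `n ^ 2 + 1` has at most two prime factors for infinitely many `n`, and the
average distance of two such `n ≤ X` is conjecturally of order `log X / log log X`.  Here: for every
finite family of linear and quadratic irreducible polynomials with positive leading coefficients
(for instance `n ^ 2 + 1` together with `n` itself, or finitely many `n ^ 2 + a`) every interval
`(M, M + Y]` with `M ≥ Y ≥ Y₀` contains a string of at least `c log Y (log log Y) ^ (1 / 3)`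
consecutive integers at which ALL the polynomials of the family are positive and have at least three
prime factors, counted with multiplicity.

Method: the translates `f i (X + k)` are the colours of the covering sieve
`Pool.Agent.TH877.M2.covering_dbl` of the starting files (which covers every colour once and the
colours of a sparse set twice); the class modulo the small primes is chosen with a potential function
that counts how often a colour is hit by small primes. -/

namespace Pool.Agent.Results.MP_484c84_nt.StringsWithoutAlmostPrimes

open Polynomial

/-- For irreducible `f i ∈ ℤ[X]`, `i` in a finite set, of degree one or two and with positive leading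
coefficient there are `c > 0` and `Y₀` such that for all `Y ≥ Y₀` and all integers `M ≥ Y` some
integer `x > M` with `x + c log Y (log log Y) ^ (1/3) ≤ M + Y` has the property that for
`0 ≤ k ≤ c log Y (log log Y) ^ (1/3)` and every `i` the integer `f i (x + k)` is positive and is a
product of at least three primes. -/
theorem result {ι : Type} [Fintype ι] (f : ι → ℤ[X]) (hf : ∀ i, Irreducible (f i))
    (hd : ∀ i, (f i).natDegree = 1 ∨ (f i).natDegree = 2) (hl : ∀ i, 0 < (f i).leadingCoeff) :
    ∃ c : ℝ, 0 < c ∧ ∃ Y₀ : ℝ, ∀ Y : ℝ, Y₀ ≤ Y → ∀ M : ℤ, Y ≤ M →
      ∃ x : ℤ, M < x ∧
        (x : ℝ) + c * Real.log Y * (Real.log (Real.log Y)) ^ (1 / 3 : ℝ) ≤ M + Y ∧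
        ∀ k : ℕ, (k : ℝ) ≤ c * Real.log Y * (Real.log (Real.log Y)) ^ (1 / 3 : ℝ) →
          ∀ i, 0 < (f i).eval (x + (k : ℤ)) ∧
            3 ≤ ((f i).eval (x + (k : ℤ))).natAbs.primeFactorsList.length := by
  classical
  -- add the polynomial `X`, so that the family is not empty
  set f' : Option ι → ℤ[X] := fun o => o.elim X f with hf'
  obtain ⟨c, hc, Y₀, h⟩ := Pool.Agent.K7.H60.SP.simul3 f'
    (fun o => by
      cases o with
      | none => exact irreducible_X
      | some i => exact hf i)
    (fun o => by
      cases o with
      | none => simp [hf']
      | some i =>
        have h1 := hd i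
        have h2 : f' (some i) = f i := rfl
        rw [h2]
        omega)
    (fun o => by
      cases o with
      | none => simp [hf']
      | some i =>
        have h1 := hd i
        have h2 : f' (some i) = f i := rfl
        rw [h2]
        omega)
    (fun o => by
      cases o with
      | none => simp [hf']
      | some i => exact hl i)
  refine ⟨c, hc, Y₀, fun Y hY M hM => ?_⟩
  obtain ⟨x, h1, h2, h3⟩ := h Y hY M hM
  exact ⟨x, h1, h2, fun k hk i => h3 k hk (some i)⟩

end Pool.Agent.Results.MP_484c84_nt.StringsWithoutAlmostPrimes
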